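import Pool.Agent.Helper50.BP.St

/-! Project BP, module ZS: a Zsigmondy prime. -/

set_option autoImplicit false

namespace Pool.Agent.Helper16.BP

open Pool.Agent.Helper50.BP

theorem hZS (hZA : StZA) (hZB : StZB) : StZS := by
  intro p n hp hp3 hn
  set Φ : ℤ := (Polynomial.cyclotomic n ℤ).eval (p : ℤ) with hΦ
  have hΦ2 : (2 : ℤ) ^ (Nat.totient n) < Φ := hZB p n hp3 hn
  have hΦ1 : 1 < Φ := lt_of_le_of_lt (one_le_pow₀ (by norm_num)) hΦ2
  have hdvd : Φ ∣ (p : ℤ) ^ n - 1 := by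
    have h1 := Polynomial.eval_dvd (x := (p : ℤ)) (Polynomial.cyclotomic.dvd_X_pow_sub_one n ℤ)
    simpa using h1
  have hp1 : 1 ≤ p ^ n := Nat.one_le_pow _ _ hp.pos
  by_cases hex : ∃ r : ℕ, r.Prime ∧ (r : ℤ) ∣ Φ ∧ (n ∣ r - 1 ∧ ∀ d : ℕ, 1 ≤ d → r ∣ p ^ d - 1 → n ∣ d)
  · obtain ⟨r, hr, hrΦ, hn1, hd⟩ := hex
    refine ⟨r, hr, ?_, ?_, ?_⟩
    · have h1 : n ≤ r - 1 := Nat.le_of_dvd (by have := hr.two_le; omega) hn1
      have h2 : r ≠ 4 := by
        rintro rfl
        exact absurd hr (by norm_num)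
      omega
    · have h1 : (r : ℤ) ∣ ((p ^ n - 1 : ℕ) : ℤ) := by
        rw [Nat.cast_sub hp1]
        push_cast
        exact hrΦ.trans hdvd
      exact Int.natCast_dvd_natCast.1 h1
    · intro d hd1 hdn hrd
      have := Nat.le_of_dvd hd1 (hd d hd1 hrd)
      omega
  · exfalso
    have hall : ∀ r : ℕ, r.Prime → (r : ℤ) ∣ Φ →
        (r ∣ n ∧ (∀ r' : ℕ, r'.Prime → r' ∣ n → r' ≤ r) ∧ ¬ (r : ℤ) ^ 2 ∣ Φ) := by
      intro r hr hrΦ
      rcases hZA p n r hp hp3 hn hr hrΦ with h1 | h1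
      · exact absurd ⟨r, hr, hrΦ, h1⟩ hex
      · exact h1
    obtain ⟨a, ha⟩ := Int.eq_ofNat_of_zero_le (by omega : 0 ≤ Φ)
    have ha1 : 1 < a := by
      rw [ha] at hΦ1
      exact_mod_cast hΦ1
    obtain ⟨r, hr, hra⟩ := Nat.exists_prime_and_dvd (by omega : a ≠ 1)
    have hcast : ∀ r : ℕ, r ∣ a → (r : ℤ) ∣ Φ := by
      intro r h1
      rw [ha]
      exact Int.natCast_dvd_natCast.2 h1
    obtain ⟨hrn, hrmax, hr2⟩ := hall r hr (hcast r hra)
    have huniq : ∀ {d : ℕ}, Nat.Prime d → d ∣ a → d = r := by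
      intro d hd hda
      obtain ⟨hdn, hdmax, -⟩ := hall d hd (hcast d hda)
      exact le_antisymm (hrmax d hd hdn) (hdmax r hr hrn)
    have hpow := Nat.eq_prime_pow_of_unique_prime_dvd (by omega : a ≠ 0) huniq
    have har : a = r := by
      rcases Nat.lt_trichotomy a.primeFactorsList.length 1 with h0 | h0 | h0
      · have h1 : a.primeFactorsList.length = 0 := by omega
        rw [h1, pow_zero] at hpow
        omega
      · rw [h0, pow_one] at hpow
        exact hpow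
      · exfalso
        apply hr2
        have h1 : r ^ 2 ∣ a := by
          rw [hpow]
          exact pow_dvd_pow r h0
        have h2 := hcast _ h1
        push_cast at h2
        exact h2
    have h1 : r - 1 ≤ Nat.totient n := by
      rw [← Nat.totient_prime hr]
      exact Nat.le_of_dvd (Nat.totient_pos.2 (by omega)) (Nat.totient_dvd_of_dvd hrn)
    have h2 : 2 ^ (Nat.totient n) < r := by
      rw [ha, har] at hΦ2
      exact_mod_cast hΦ2
    have h3 : 2 ^ (r - 1) ≤ 2 ^ (Nat.totient n) := Nat.pow_le_pow_right (by norm_num) h1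
    have h4 : r - 1 < 2 ^ (r - 1) := Nat.lt_two_pow_self
    omega

end Pool.Agent.Helper16.BP
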